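import Pool.Agent.Mg.F53d700.G8ebf4d
import Pool.Agent.Mg.F53d700.Gb3e6ac

namespace Pool.Agent.MP_c1eb4d_f.KeptFiniteChowDL

open MvPolynomial Pool.Agent.MP_a9d3bd_q Pool.Agent.MP_a9d3bd_s Pool.Agent.MP_c1eb4d_f

theorem result (p : ℕ) [Fact p.Prime] (k : Type) [Field k] [IsAlgClosed k] [Algebra (ZMod p) k]
    [Algebra.IsAlgebraic (ZMod p) k] (n l m e : ℕ) (he : 0 < e)
    (G : Subgroup (Matrix.SpecialLinearGroup (Fin (n + 1)) k))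
    (B H : Subgroup G) (P : Fin (l + 1) → Subgroup G) (F : G →* G)
    (hG : ZClosed (pts (Set.univ : Set G))) (hH : ZClosed (pts (H : Set G)))
    (hP : ∀ i, ZClosed (pts (P i : Set G))) (hGB : ZClosed (coneOf (Set.univ : Set G)))
    (hB : ∀ g : G, g ∈ B ↔ ∀ a, a ≠ 0 → col g a = 0)
    (hBt : ∀ g ∈ B, g.1.1.IsUpperTriangular) (hBP : ∀ i, B ≤ P i)
    (hPl : ∀ i, ∃ u, coneOf (P i : Set G) = Submodule.span k {col (1 : G), u})
    (hHc : (vanishingIdeal k (pts (H : Set G))).IsPrime)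
    (hHs : Finite (DoubleCoset.Quotient (H : Set G) B)) (hF : Poly F)
    (hFB : ∀ g ∈ B, F g ∈ B) (hFH : ∀ g ∈ H, F g ∈ H)
    (hFm : ∀ (g : G) a b, (F^[m] g).1 a b = g.1 a b ^ p ^ e) (j : ℕ) :
    ∃ (N : ℕ) (T : Finset (Var (eqs k F P) j →₀ ℤ)), 0 < N ∧ ∀ z : Var (eqs k F P) j →₀ ℤ,
      N • z ∈ Submodule.span ℤ (T : Set (Var (eqs k F P) j →₀ ℤ)) ⊔ RatZ (eqs k F P) j ⊔
        difZ (eqs k F P) j (tw k l '' {γ | γ ∈ H ∧ F γ = γ}) := by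
  obtain ⟨T, h0, h1, h2, h3⟩ := exists_tup (fb_of_closure p k) he hG hH hP
    (by simpa only [coneOf, Set.mem_univ, true_and] using hGB) hB hBt hBP
    (fun i => (hPl i).imp fun u hu v => Set.ext_iff.1 hu v) hHc hHs hF hFB hFH hFm
  have e := eqs_eq (P := P) (F := F) T h1 h2 h3 k
  simp only [Algebra.algebraMap_self, MvPolynomial.map_id, Set.image_id'] at e
  obtain ⟨C, e', hρ⟩ := T.exists_core
  rw [← e'] at e
  generalize eqs k F P = S at e ⊢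
  subst e
  obtain ⟨N, U, hN, h⟩ := Z.brg C.homog C.xc_stab (Z.core_main C (fb_of_closure p k)) j
  refine ⟨N, U, hN, fun z => SetLike.le_def.1 (sup_le_sup_left ?_ _) (h z)⟩
  refine Submodule.span_mono ?_
  rintro z ⟨_, ⟨g, rfl⟩, h⟩
  refine ⟨_, ⟨g.1, ⟨g.2.1, g.2.2⟩, ?_⟩, h⟩
  beta_reduce
  rw [hρ, h0]
  rfl

end Pool.Agent.MP_c1eb4d_f.KeptFiniteChowDL
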